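import Pool.Agent.helper52.OC.SpecA

/-!
# Project oc:, row OMC: the largest proper convex subgroup (helper11)

The proper convex subgroups which contain `N` form a chain; `C` is their union, it is proper because the group is finitely generated.
-/

set_option autoImplicit false

namespace OC

/-- the proper convex subgroups which contain `N`. -/
def OMC_S {G : Type} [Group G] (N : Subgroup G) (P : Set G) : Set (Subgroup G) := {D | N ≤ D ∧ Cvx P D ∧ D ≠ ⊤}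

theorem OMC_aux {G : Type} [Group G] (N : Subgroup G) (P : Set G) (hP : QCone N P) (D₁ D₂ : Subgroup G)
    (h₁ : N ≤ D₁) (h₂ : N ≤ D₂) (c₁ : Cvx P D₁) (c₂ : Cvx P D₂) (d₁ d₂ : G) (hd₁ : d₁ ∈ D₁) (hd₁' : d₁ ∉ D₂)
    (hd₂ : d₂ ∈ D₂) (hd₂' : d₂ ∉ D₁) (p₁ : d₁ ∈ P) (p₂ : d₂ ∈ P) : False := by
  have h : d₁⁻¹ * d₂ ∉ N := fun h => hd₂' (by
    have := D₁.mul_mem hd₁ (h₁ h)
    rwa [mul_inv_cancel_left] at this)
  rcases hP.tri _ h with h3 | h3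
  · have := c₂ d₁ p₁ _ h3 (by rwa [mul_inv_cancel_left])
    exact hd₁' this
  · rw [mul_inv_rev, inv_inv] at h3
    have := c₁ d₂ p₂ _ h3 (by rwa [mul_inv_cancel_left])
    exact hd₂' this

theorem OMC_chain {G : Type} [Group G] (N : Subgroup G) (P : Set G) (hP : QCone N P) (D₁ D₂ : Subgroup G)
    (h₁ : N ≤ D₁) (h₂ : N ≤ D₂) (c₁ : Cvx P D₁) (c₂ : Cvx P D₂) : D₁ ≤ D₂ ∨ D₂ ≤ D₁ := by
  by_contra hcon
  push Not at hcon
  obtain ⟨ha, hb⟩ := hcon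
  obtain ⟨d₁, hd₁, hd₁'⟩ := SetLike.not_le_iff_exists.1 ha
  obtain ⟨d₂, hd₂, hd₂'⟩ := SetLike.not_le_iff_exists.1 hb
  have key : ∀ D D' : Subgroup G, N ≤ D' → ∀ d ∈ D, d ∉ D' → ∃ e ∈ D, e ∉ D' ∧ e ∈ P := by
    intro D D' hN d hd hd'
    rcases hP.tri d (fun h => hd' (hN h)) with h | h
    · exact ⟨d, hd, hd', h⟩
    · exact ⟨d⁻¹, D.inv_mem hd, fun h' => hd' (by simpa using D'.inv_mem h'), h⟩
  obtain ⟨e₁, he₁, he₁', q₁⟩ := key D₁ D₂ h₂ d₁ hd₁ hd₁'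
  obtain ⟨e₂, he₂, he₂', q₂⟩ := key D₂ D₁ h₁ d₂ hd₂ hd₂'
  exact OMC_aux N P hP D₁ D₂ h₁ h₂ c₁ c₂ e₁ e₂ he₁ he₁' he₂ he₂' q₁ q₂

theorem OMC_conj {G : Type} [Group G] (N : Subgroup G) (P : Set G) (hN : N.Normal) (hP : QCone N P) (D : Subgroup G)
    (hD : D ∈ OMC_S N P) (g : G) : ∃ D' ∈ OMC_S N P, ∀ x ∈ D, g * x * g⁻¹ ∈ D' := by
  obtain ⟨h1, h2, h3⟩ := hD
  refine ⟨D.comap (MulAut.conj g⁻¹).toMonoidHom, ⟨?_, ?_, ?_⟩, ?_⟩
  · intro x hx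
    rw [Subgroup.mem_comap]
    apply h1
    show g⁻¹ * x * g⁻¹⁻¹ ∈ N
    exact hN.conj_mem x hx g⁻¹
  · intro a ha b hb hab
    rw [Subgroup.mem_comap] at hab ⊢
    have e : ∀ x : G, (MulAut.conj g⁻¹).toMonoidHom x = g⁻¹ * x * g := by
      intro x
      show g⁻¹ * x * g⁻¹⁻¹ = _
      rw [inv_inv]
    rw [e] at hab ⊢
    refine h2 _ (hP.conj a ha g) _ (hP.conj b hb g) ?_
    have : g⁻¹ * a * g * (g⁻¹ * b * g) = g⁻¹ * (a * b) * g := by group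
    rwa [this]
  · intro htop
    apply h3
    rw [Subgroup.eq_top_iff'] at htop ⊢
    intro x
    have := htop (g * x * g⁻¹)
    rw [Subgroup.mem_comap] at this
    have e : (MulAut.conj g⁻¹).toMonoidHom (g * x * g⁻¹) = x := by
      show g⁻¹ * (g * x * g⁻¹) * g⁻¹⁻¹ = x
      group
    rwa [e] at this
  · intro x hx
    rw [Subgroup.mem_comap]
    have e : (MulAut.conj g⁻¹).toMonoidHom (g * x * g⁻¹) = x := by
      show g⁻¹ * (g * x * g⁻¹) * g⁻¹⁻¹ = x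
      group
    rwa [e]

theorem OMC : OMC_stmt := by
  intro G _ N P hN hP hFG hNtop
  have hne : (OMC_S N P).Nonempty := ⟨N, le_rfl, fun a ha b hb hab => absurd hab (hP.dis _ (hP.mul a ha b hb)), hNtop⟩
  have hdir : DirectedOn (· ≤ ·) (OMC_S N P) := by
    intro D₁ h₁ D₂ h₂
    rcases OMC_chain N P hP D₁ D₂ h₁.1 h₂.1 h₁.2.1 h₂.2.1 with h | h
    · exact ⟨D₂, h₂, h, le_rfl⟩
    · exact ⟨D₁, h₁, le_rfl, h⟩
  have hmem : ∀ x : G, x ∈ sSup (OMC_S N P) ↔ ∃ D ∈ OMC_S N P, x ∈ D := fun x =>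
    Subgroup.mem_sSup_of_directedOn hne hdir
  have hle : ∀ D ∈ OMC_S N P, D ≤ sSup (OMC_S N P) := fun D hD => le_sSup hD
  refine ⟨sSup (OMC_S N P), (hle N ⟨le_rfl, fun a ha b hb hab => absurd hab (hP.dis _ (hP.mul a ha b hb)), hNtop⟩), ?_, ?_, ?_, ?_⟩
  · refine ⟨fun x hx g => ?_⟩
    obtain ⟨D, hD, hxD⟩ := (hmem x).1 hx
    obtain ⟨D', hD', h⟩ := OMC_conj N P hN hP D hD g
    exact (hmem _).2 ⟨D', hD', h x hxD⟩
  · intro htop
    obtain ⟨s, hs⟩ := Group.fg_def.1 hFG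
    have h1 : (s : Set G) ⊆ ⋃ D ∈ OMC_S N P, (D : Set G) := by
      intro x _
      have hx : x ∈ sSup (OMC_S N P) := by rw [htop]; exact Subgroup.mem_top x
      obtain ⟨D, hD, hxD⟩ := (hmem x).1 hx
      exact Set.mem_biUnion hD hxD
    obtain ⟨D, hD, hsD⟩ := DirectedOn.exists_mem_subset_of_finset_subset_biUnion (f := fun D : Subgroup G => (D : Set G)) hne hdir h1
    apply hD.2.2
    rw [eq_top_iff, ← hs]
    exact (Subgroup.closure_le D).2 hsD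
  · intro a ha b hb hab
    obtain ⟨D, hD, h⟩ := (hmem _).1 hab
    exact (hmem _).2 ⟨D, hD, hD.2.1 a ha b hb h⟩
  · intro D hD1 hD2 hD3
    exact hle D ⟨hD1, hD2, hD3⟩

end OC
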